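import Mathlib.Analysis.InnerProductSpace.PiL2
import Mathlib.Analysis.Convex.PartitionOfUnity
import Mathlib.Analysis.Normed.Module.Convex
import Mathlib.Topology.Homotopy.Equiv
import Mathlib.Topology.MetricSpace.HausdorffDistance
import Mathlib.Topology.EMetricSpace.Paracompact
import Pool.Agent.MP_937632_gt.Defs

/-!
The planar case: the nearest point fibres of the shadow are intervals, so the nearest point map
is a homotopy equivalence from the shadow to the curve.
-/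

set_option autoImplicit false

open Set Metric
open scoped InnerProductSpace

namespace Pool.Agent.MP_937632_gt.Plane

abbrev E2 : Type := EuclideanSpace ℝ (Fin 2)

theorem hull_sub {β : ℝ} {S σ : Set E2} (h1 : σ.Finite) (h2 : σ.Nonempty) (h3 : σ ⊆ S)
    (h4 : diam σ < β) : convexHull ℝ σ ⊆ shadow β S :=
  subset_biUnion_of_mem (u := fun σ : Set E2 => convexHull ℝ σ)
    (show σ ∈ {σ : Set E2 | σ.Finite ∧ σ.Nonempty ∧ σ ⊆ S ∧ diam σ < β} from ⟨h1, h2, h3, h4⟩)

theorem diam_insert_lt {β : ℝ} (hβ : 0 < β) {σ : Set E2} (h1 : σ.Finite) (h4 : diam σ < β)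
    {d : E2} (hd : ∀ v ∈ σ, dist v d ≤ 0.9 * β) : diam (insert d σ) < β := by
  have hm : max (diam σ) (0.9 * β) < β := max_lt h4 (by linarith)
  refine lt_of_le_of_lt (diam_le_of_forall_dist_le (le_max_of_le_left diam_nonneg) ?_) hm
  rintro x (rfl | hx) y (rfl | hy)
  · rw [dist_self]; exact le_max_of_le_left diam_nonneg
  · rw [dist_comm]; exact le_max_of_le_right (hd y hy)
  · exact le_max_of_le_right (hd x hx)
  · exact le_max_of_le_left (dist_le_diam_of_mem h1.isBounded hx hy)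

theorem exists_cross (L : E2 →L[ℝ] ℝ) (m : E2) {a b : E2} (ha : L (a - m) ≤ 0)
    (hb : 0 ≤ L (b - m)) : ∃ y ∈ segment ℝ a b, L (y - m) = 0 := by
  have hc : ContinuousOn (fun z => L (z - m)) (segment ℝ a b) := by fun_prop
  exact (convex_segment a b).isPreconnected.intermediate_value (left_mem_segment ℝ a b)
    (right_mem_segment ℝ a b) hc ⟨ha, hb⟩

theorem exists_nonpos (L : E2 →L[ℝ] ℝ) (m : E2) {σ : Set E2} {x : E2}
    (hx : x ∈ convexHull ℝ σ) (h0 : L (x - m) = 0) : ∃ a ∈ σ, L (a - m) ≤ 0 := by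
  by_contra hc
  push Not at hc
  have hconv : Convex ℝ {z : E2 | L m < L z} := convex_halfSpace_gt L.isLinear _
  have := convexHull_min (fun v hv => by
    have := hc v hv
    rw [map_sub] at this
    exact (by linarith : L m < L v)) hconv hx
  rw [map_sub] at h0
  have h1 : L m < L x := this
  linarith

theorem seg_ball {m a b y : E2} {r : ℝ} (ha : dist a m ≤ r) (hb : dist b m ≤ r)
    (hy : y ∈ segment ℝ a b) : dist y m ≤ r :=
  (convex_closedBall m r).segment_subset ha hb hy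

theorem link {β : ℝ} (hβ : 0 < β) {S σ : Set E2} {m : E2} (L : E2 →L[ℝ] ℝ)
    (hL : ∀ z, |L z| ≤ ‖z‖)
    (hcl : ∀ p ∈ S, ∀ q ∈ S, dist p m ≤ 3 * β → dist q m ≤ 3 * β → |L (p - q)| ≤ 0.8 * β →
      dist p q ≤ 0.9 * β)
    (h1 : σ.Finite) (h3 : σ ⊆ S) (h4 : diam σ < β) (h5 : ∀ v ∈ σ, dist v m ≤ 3 * β)
    {x : E2} (hx : x ∈ convexHull ℝ σ) (h0 : L (x - m) = 0)
    {c d : E2} (hc : c ∈ S) (hd : d ∈ S) (hcm : dist c m ≤ 3 * β) (hdm : dist d m ≤ 3 * β)
    (hc1 : -(0.3 * β) ≤ L (c - m)) (hc2 : L (c - m) ≤ 0)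
    (hd1 : 0.2 * β ≤ L (d - m)) (hd2 : L (d - m) ≤ 0.3 * β)
    (hlow : ∀ v ∈ σ, -(β / 2) ≤ L (v - m)) {y : E2} (hy : y ∈ segment ℝ c d) :
    ∃ z, L (z - m) = 0 ∧ segment ℝ x z ⊆ shadow β S ∧ segment ℝ z y ⊆ shadow β S := by
  have hsub : ∀ p q : E2, L (p - q) = L (p - m) - L (q - m) := fun p q => by
    simp only [map_sub]; ring
  obtain ⟨a, ha, ha0⟩ := exists_nonpos L m hx h0
  have hup : ∀ v ∈ σ, L (v - m) ≤ β := fun v hv => by
    have e1 := (le_abs_self _).trans (hL (v - a))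
    have e2 := dist_le_diam_of_mem h1.isBounded hv ha
    rw [dist_eq_norm] at e2
    rw [hsub] at e1
    linarith
  have hvd : ∀ v ∈ σ, dist v d ≤ 0.9 * β := fun v hv =>
    hcl v (h3 hv) d hd (h5 v hv) hdm (by
      rw [hsub, abs_le]
      exact ⟨by linarith [hlow v hv], by linarith [hup v hv]⟩)
  obtain ⟨z, hz, hz0⟩ := exists_cross L m ha0 (show 0 ≤ L (d - m) by linarith)
  have k1 : convexHull ℝ (insert d σ) ⊆ shadow β S :=
    hull_sub (h1.insert d) (insert_nonempty _ _) (insert_subset hd h3)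
      (diam_insert_lt hβ h1 h4 hvd)
  have hac : dist a c ≤ 0.9 * β := hcl a (h3 ha) c hc (h5 a ha) hcm (by
    rw [hsub, abs_le]
    exact ⟨by linarith [hlow a ha], by linarith⟩)
  have hcd : dist c d ≤ 0.9 * β := hcl c hc d hd hcm hdm (by
    rw [hsub, abs_le]
    exact ⟨by linarith, by linarith⟩)
  have k2 : convexHull ℝ (insert d (insert c {a})) ⊆ shadow β S := by
    refine hull_sub (toFinite _) (insert_nonempty _ _)
      (insert_subset hd (insert_subset hc (singleton_subset_iff.2 (h3 ha)))) ?_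
    refine diam_insert_lt hβ (toFinite _) (diam_insert_lt hβ (toFinite _) (by simpa) ?_) ?_
    · rintro v rfl
      exact hac
    · rintro v (rfl | rfl)
      · exact hcd
      · exact hvd v ha
  refine ⟨z, hz0, Subset.trans ?_ k1, Subset.trans ?_ k2⟩
  · have hh := convex_convexHull ℝ (insert d σ)
    refine hh.segment_subset (convexHull_mono (subset_insert _ _) hx) ?_
    exact hh.segment_subset (subset_convexHull _ _ (Or.inr ha))
      (subset_convexHull _ _ (Or.inl rfl)) hz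
  · have hh := convex_convexHull ℝ (insert d (insert c {a}) : Set E2)
    refine hh.segment_subset ?_ ?_
    · exact hh.segment_subset (subset_convexHull _ _ (by simp))
        (subset_convexHull _ _ (by simp)) hz
    · exact hh.segment_subset (subset_convexHull _ _ (by simp))
        (subset_convexHull _ _ (by simp)) hy

/-- In the plane the points orthogonal to a unit vector lie on one line. -/
theorem seg_sub {u m x y z : E2} (hu : ‖u‖ = 1) (hx : ⟪u, x - m⟫_ℝ = 0) (hy : ⟪u, y - m⟫_ℝ = 0)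
    (hz : ⟪u, z - m⟫_ℝ = 0) : segment ℝ x z ⊆ segment ℝ x y ∪ segment ℝ y z := by
  have hu2 : u 0 ^ 2 + u 1 ^ 2 = 1 := by
    have := EuclideanSpace.real_norm_sq_eq u
    rw [hu, Fin.sum_univ_two] at this
    linarith
  let n : E2 := !₂[-u 1, u 0]
  have key : ∀ w : E2, ⟪u, w - m⟫_ℝ = 0 → ∃ s : ℝ, w = AffineMap.lineMap m (m + n) s := by
    intro w hw
    have hw' : u 0 * (w 0 - m 0) + u 1 * (w 1 - m 1) = 0 := by
      rw [← hw]
      simp [PiLp.inner_apply, Fin.sum_univ_two]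
      ring
    refine ⟨-u 1 * (w 0 - m 0) + u 0 * (w 1 - m 1), ?_⟩
    ext i
    fin_cases i
    · simp [AffineMap.lineMap_apply, n]
      linear_combination (-(w 0 - m 0)) * hu2 + u 0 * hw'
    · simp [AffineMap.lineMap_apply, n]
      linear_combination (-(w 1 - m 1)) * hu2 + u 1 * hw'
  obtain ⟨a, rfl⟩ := key x hx
  obtain ⟨b, rfl⟩ := key y hy
  obtain ⟨c, rfl⟩ := key z hz
  simp only [← image_segment, ← image_union, segment_eq_uIcc]
  exact image_mono uIcc_subset_uIcc_union_uIcc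

/-- The data of a compact curve with a continuous unit tangent and a curvature bound. -/
structure Tube (M : Set E2) (T : M → E2) (K : ℝ) : Prop where
  compact : IsCompact M
  ne : M.Nonempty
  cont : Continuous T
  unit : ∀ m, ‖T m‖ = 1
  pos : 0 < K
  flat : ∀ m m' : M, ∀ v : E2, ⟪T m, v⟫_ℝ = 0 →
    |⟪v, (m' : E2) - m⟫_ℝ| ≤ K * ‖v‖ * ‖(m' : E2) - m‖ ^ 2
  fermat : ∀ m : M, ∀ x : E2, (∀ m' : M, dist x m ≤ dist x m') → ⟪T m, x - m⟫_ℝ = 0
  along : ∀ m : M, ∀ τ : ℝ, ∃ m' : M, ‖(m' : E2) - m - τ • T m‖ ≤ K * τ ^ 2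

variable {M : Set E2} {T : M → E2} {K : ℝ}

theorem Tube.strict (h : Tube M T K) {m : M} {x : E2} (h0 : ⟪T m, x - m⟫_ℝ = 0)
    (h1 : 4 * K * dist x m ≤ 1) (m' : M) :
    dist x m ^ 2 + ‖(m' : E2) - m‖ ^ 2 / 2 ≤ dist x m' ^ 2 := by
  have e1 := (le_abs_self _).trans (h.flat m m' _ h0)
  have e2 : x - m' = (x - m) - ((m' : E2) - m) := by abel
  rw [dist_eq_norm] at h1
  rw [dist_eq_norm, dist_eq_norm, e2, norm_sub_sq_real (x - m)]
  nlinarith [sq_nonneg ‖(m' : E2) - m‖]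

theorem Tube.nearest (h : Tube M T K) {m : M} {x : E2} (h0 : ⟪T m, x - m⟫_ℝ = 0)
    (h1 : 4 * K * dist x m ≤ 1) (m' : M) : dist x m ≤ dist x m' := by
  have := h.strict h0 h1 m'
  exact (pow_le_pow_iff_left₀ dist_nonneg dist_nonneg two_ne_zero).1
    (by nlinarith [sq_nonneg ‖(m' : E2) - m‖])

theorem Tube.close (h : Tube M T K) {β : ℝ} (hβ : 0 < β) (hK : 320 * K * β ≤ 1) {S : Set E2}
    (hS : ∀ p ∈ S, ∃ m : M, dist p m < β / 100) (m : M) :
    ∀ p ∈ S, ∀ q ∈ S, dist p m ≤ 3 * β → dist q m ≤ 3 * β → |⟪T m, p - q⟫_ℝ| ≤ 0.8 * β →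
      dist p q ≤ 0.9 * β := by
  intro p hp q hq hpm hqm hpq
  set w : E2 := (p - q) - ⟪T m, p - q⟫_ℝ • T m with hw
  have huu : ⟪T m, T m⟫_ℝ = 1 := by rw [real_inner_self_eq_norm_sq, h.unit]; norm_num
  have hw0 : ⟪T m, w⟫_ℝ = 0 := by
    rw [hw, inner_sub_right, real_inner_smul_right, huu]; ring
  have hb : ∀ p ∈ S, dist p m ≤ 3 * β → |⟪w, p - m⟫_ℝ| ≤ ‖w‖ * (β / 10) := by
    intro p hp hpm
    obtain ⟨m1, hm1⟩ := hS p hp
    have e1 := h.flat m m1 w hw0
    have e2 : ‖(m1 : E2) - m‖ ≤ 4 * β := by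
      rw [← dist_eq_norm]
      linarith [dist_triangle_left (m1 : E2) m p]
    have e3 : |⟪w, p - m1⟫_ℝ| ≤ ‖w‖ * (β / 100) := by
      refine (abs_real_inner_le_norm _ _).trans ?_
      rw [← dist_eq_norm p]
      exact mul_le_mul_of_nonneg_left hm1.le (norm_nonneg _)
    have e4 : ⟪w, p - m⟫_ℝ = ⟪w, p - m1⟫_ℝ + ⟪w, (m1 : E2) - m⟫_ℝ := by
      rw [← inner_add_right]; congr 1; abel
    have e5 : K * ‖w‖ * ‖(m1 : E2) - m‖ ^ 2 ≤ ‖w‖ * (β / 20) := by
      have : ‖(m1 : E2) - m‖ ^ 2 ≤ (4 * β) ^ 2 := pow_le_pow_left₀ (norm_nonneg _) e2 2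
      have e6 : K * ‖(m1 : E2) - m‖ ^ 2 ≤ β / 20 := by nlinarith [h.pos]
      nlinarith [norm_nonneg w]
    rw [e4]
    refine (abs_add_le _ _).trans ?_
    nlinarith [norm_nonneg w]
  have e1 : ‖w‖ ^ 2 = ⟪w, p - m⟫_ℝ - ⟪w, q - m⟫_ℝ := by
    have : ⟪w, T m⟫_ℝ = 0 := by rw [real_inner_comm, hw0]
    rw [← real_inner_self_eq_norm_sq, ← inner_sub_right]
    nth_rewrite 2 [hw]
    rw [inner_sub_right, real_inner_smul_right, this]
    simp
  have e2 : ‖w‖ ≤ β / 5 := by
    have a1 := (le_abs_self _).trans (hb p hp hpm)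
    have a2 := (neg_le_abs _).trans (hb q hq hqm)
    by_contra hc
    push Not at hc
    nlinarith
  have e3 : ‖p - q‖ ^ 2 = ‖w‖ ^ 2 + ⟪T m, p - q⟫_ℝ ^ 2 := by
    have : p - q = w + ⟪T m, p - q⟫_ℝ • T m := by rw [hw]; abel
    nth_rewrite 1 [this]
    rw [norm_add_sq_real, real_inner_smul_right, real_inner_comm (T m) w, hw0, norm_smul, h.unit,
      Real.norm_eq_abs, mul_one, sq_abs]
    ring
  rw [dist_eq_norm]
  refine (pow_le_pow_iff_left₀ (norm_nonneg _) (by linarith) two_ne_zero).1 ?_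
  have a1 : ‖w‖ ^ 2 ≤ (β / 5) ^ 2 := pow_le_pow_left₀ (norm_nonneg _) e2 2
  have a2 : ⟪T m, p - q⟫_ℝ ^ 2 ≤ (0.8 * β) ^ 2 := by
    rw [← sq_abs]; exact pow_le_pow_left₀ (abs_nonneg _) hpq 2
  nlinarith

theorem Tube.exists_pt (h : Tube M T K) {β : ℝ} (hβ : 0 < β) (hK : 320 * K * β ≤ 1) {S : Set E2}
    (hS : ∀ m : M, ∃ p ∈ S, dist p m < β / 100) (m : M) {τ : ℝ} (hτ : |τ| = β / 4) :
    ∃ p ∈ S, dist p m < β ∧ |⟪T m, p - m⟫_ℝ - τ| < β / 20 := by
  obtain ⟨m', hm'⟩ := h.along m τ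
  obtain ⟨p, hp, hpm⟩ := hS m'
  have huu : ⟪T m, T m⟫_ℝ = 1 := by rw [real_inner_self_eq_norm_sq, h.unit]; norm_num
  have e0 : K * τ ^ 2 ≤ β / 100 := by
    rw [← sq_abs, hτ]; nlinarith [h.pos]
  have e1 : ‖p - m - τ • T m‖ < β / 20 := by
    have : p - m - τ • T m = (p - m') + ((m' : E2) - m - τ • T m) := by abel
    rw [this]
    rw [dist_eq_norm] at hpm
    linarith [norm_add_le (p - m') ((m' : E2) - m - τ • T m)]
  refine ⟨p, hp, ?_, ?_⟩
  · have : p - m = (p - m - τ • T m) + τ • T m := by abel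
    rw [dist_eq_norm, this]
    have e2 := norm_add_le (p - m - τ • T m) (τ • T m)
    rw [norm_smul, h.unit, Real.norm_eq_abs, hτ] at e2
    linarith
  · have e2 := abs_real_inner_le_norm (T m) (p - m - τ • T m)
    rw [inner_sub_right, real_inner_smul_right, huu, h.unit] at e2
    simp only [mul_one, one_mul] at e2
    linarith

/-- The fibre of the nearest point map. -/
def fib (β : ℝ) (S M : Set E2) (m : M) : Set E2 :=
  shadow β S ∩ {x | ∀ m' : M, dist x m ≤ dist x m'}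

theorem convex_cell (M : Set E2) (m : M) : Convex ℝ {x : E2 | ∀ m' : M, dist x m ≤ dist x m'} := by
  have : {x : E2 | ∀ m' : M, dist x m ≤ dist x m'} =
      ⋂ m' : M, {x : E2 | innerSL ℝ ((m' : E2) - m) x ≤ (‖(m' : E2)‖ ^ 2 - ‖(m : E2)‖ ^ 2) / 2} := by
    ext x
    simp only [mem_iInter, mem_ofPred_eq, innerSL_apply_apply]
    refine forall_congr' fun m' => ?_
    rw [← pow_le_pow_iff_left₀ dist_nonneg dist_nonneg two_ne_zero, dist_eq_norm, dist_eq_norm,
      norm_sub_sq_real, norm_sub_sq_real, inner_sub_left, real_inner_comm x, real_inner_comm x]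
    constructor <;> intro h <;> linarith
  rw [this]
  exact convex_iInter fun m' => convex_halfSpace_le (innerSL ℝ ((m' : E2) - m)).isLinear _

theorem near_of_mem {β : ℝ} {S : Set E2} (hS : ∀ p ∈ S, ∃ m : M, dist p m < β / 100) {m : M}
    {x : E2} (hx : x ∈ fib β S M m) :
    ∃ σ : Set E2, σ.Finite ∧ σ ⊆ S ∧ diam σ < β ∧ x ∈ convexHull ℝ σ ∧ dist x m ≤ 2 * β ∧
      ∀ v ∈ σ, dist v m ≤ 3 * β := by
  obtain ⟨σ, ⟨h1, ⟨v, hv⟩, h3, h4⟩, hxσ⟩ := mem_iUnion₂.1 hx.1
  have hβ : 0 < β := lt_of_le_of_lt diam_nonneg h4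
  have hd : ∀ v ∈ σ, dist x v ≤ diam σ := fun v hv =>
    convexHull_min (fun w hw => dist_le_diam_of_mem h1.isBounded hw hv)
      (convex_closedBall v (diam σ)) hxσ
  obtain ⟨m1, hm1⟩ := hS v (h3 hv)
  have e : dist x m ≤ 2 * β := by
    linarith [hx.2 m1, dist_triangle x v m1, hd v hv]
  exact ⟨σ, h1, h3, h4, hxσ, e, fun w hw => by linarith [dist_triangle_left w m x, hd w hw]⟩

theorem Tube.convex_fib (h : Tube M T K) {β : ℝ} (hβ : 0 < β) (hK : 320 * K * β ≤ 1)
    {S : Set E2} (hS : ∀ p ∈ S, ∃ m : M, dist p m < β / 100)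
    (hS' : ∀ m : M, ∃ p ∈ S, dist p m < β / 100) (m : M) : Convex ℝ (fib β S M m) := by
  obtain ⟨c, hc, hcm, hc1⟩ := h.exists_pt hβ hK hS' m (τ := -(β / 4))
    (by rw [abs_neg, abs_of_pos (by linarith)])
  obtain ⟨d, hd, hdm, hd1⟩ := h.exists_pt hβ hK hS' m (τ := β / 4) (abs_of_pos (by linarith))
  rw [abs_lt] at hc1 hd1
  have hcl := h.close hβ hK hS m
  let L : E2 →L[ℝ] ℝ := innerSL ℝ (T m)
  have hLa : ∀ z, L z = ⟪T m, z⟫_ℝ := fun _ => rfl
  have hL : ∀ z, |L z| ≤ ‖z‖ := fun z => by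
    simpa [h.unit, hLa] using abs_real_inner_le_norm (T m) z
  obtain ⟨y, hy, hy0⟩ := exists_cross L m (a := c) (b := d) (by rw [hLa]; linarith)
    (by rw [hLa]; linarith)
  have star : ∀ x ∈ fib β S M m, segment ℝ x y ⊆ shadow β S := by
    intro x hx
    obtain ⟨σ, h1, h3, h4, hxσ, -, h5⟩ := near_of_mem hS hx
    have h0 := h.fermat m x hx.2
    have key : ∃ z, L (z - m) = 0 ∧ segment ℝ x z ⊆ shadow β S ∧ segment ℝ z y ⊆ shadow β S := by
      by_cases hlow : ∀ v ∈ σ, -(β / 2) ≤ L (v - m)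
      · exact link hβ L hL hcl h1 h3 h4 h5 hxσ h0 hc hd (by linarith) (by linarith)
          (by rw [hLa]; linarith) (by rw [hLa]; linarith) (by rw [hLa]; linarith)
          (by rw [hLa]; linarith) hlow hy
      · push Not at hlow
        obtain ⟨v0, hv0, hv1⟩ := hlow
        have hN : ∀ z, (-L) z = -⟪T m, z⟫_ℝ := fun _ => rfl
        obtain ⟨z, e1, e2⟩ := link hβ (-L) (fun z => by rw [hN, abs_neg]; exact hL z)
          (fun p hp q hq a b e => hcl p hp q hq a b (by rwa [hN, abs_neg] at e))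
          h1 h3 h4 h5 hxσ (by rw [hN, h0, neg_zero]) hd hc (by linarith) (by linarith)
          (by rw [hN]; linarith) (by rw [hN]; linarith) (by rw [hN]; linarith)
          (by rw [hN]; linarith) (fun v hv => by
            have a1 := (le_abs_self _).trans (hL (v - v0))
            have a2 := dist_le_diam_of_mem h1.isBounded hv hv0
            rw [dist_eq_norm] at a2
            have a3 : L (v - v0) = L (v - m) - L (v0 - m) := by simp only [map_sub]; ring
            rw [hN, ← hLa]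
            linarith) (segment_symm ℝ c d ▸ hy)
        exact ⟨z, by rw [hN] at e1; rw [hLa]; linarith, e2⟩
    obtain ⟨z, e1, e2, e3⟩ := key
    exact (seg_sub (h.unit m) h0 e1 hy0).trans (union_subset e2 e3)
  refine convex_iff_segment_subset.2 fun x hx x' hx' => subset_inter ?_
    ((convex_cell M m).segment_subset hx.2 hx'.2)
  refine (seg_sub (h.unit m) (h.fermat m x hx.2) hy0 (h.fermat m x' hx'.2)).trans
    (union_subset (star x hx) ?_)
  rw [segment_symm]
  exact star x' hx'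

theorem Tube.exists_section (h : Tube M T K) {β : ℝ} (hβ : 0 < β) (hK : 320 * K * β ≤ 1)
    {S : Set E2} (hS : ∀ p ∈ S, ∃ m : M, dist p m < β / 100)
    (hS' : ∀ m : M, ∃ p ∈ S, dist p m < β / 100) :
    ∃ g : C(M, E2), ∀ m, g m ∈ fib β S M m := by
  refine exists_continuous_forall_mem_convex_of_local (h.convex_fib hβ hK hS hS') fun m0 => ?_
  obtain ⟨c, hc, hcm, hc1⟩ := h.exists_pt hβ hK hS' m0 (τ := -(β / 4))
    (by rw [abs_neg, abs_of_pos (by linarith)])
  obtain ⟨d, hd, hdm, hd1⟩ := h.exists_pt hβ hK hS' m0 (τ := β / 4) (abs_of_pos (by linarith))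
  rw [abs_lt] at hc1 hd1
  have hcd : dist c d ≤ 0.9 * β := h.close hβ hK hS m0 c hc d hd (by linarith) (by linarith) (by
    have : c - d = (c - m0) - (d - m0) := by abel
    rw [this, inner_sub_right, abs_le]
    exact ⟨by linarith, by linarith⟩)
  have hseg : segment ℝ c d ⊆ shadow β S := by
    rw [← convexHull_pair, pair_comm]
    refine hull_sub (toFinite _) (insert_nonempty _ _)
      (insert_subset hd (singleton_subset_iff.2 hc)) ?_
    refine diam_insert_lt hβ (toFinite _) (by simpa) ?_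
    rintro v rfl
    exact hcd
  have hT := h.cont
  let A : M → ℝ := fun m => ⟪T m, c - m⟫_ℝ
  let B : M → ℝ := fun m => ⟪T m, d - m⟫_ℝ
  have hA : Continuous A := by fun_prop
  have hB : Continuous B := by fun_prop
  let U : Set M := {m | A m < 0 ∧ 0 < B m ∧ dist c m < β ∧ dist d m < β}
  have hU : IsOpen U := (isOpen_lt hA continuous_const).inter
    ((isOpen_lt continuous_const hB).inter
      ((isOpen_lt (continuous_const.dist continuous_subtype_val) continuous_const).inter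
        (isOpen_lt (continuous_const.dist continuous_subtype_val) continuous_const)))
  have hm0 : m0 ∈ U := ⟨by simp only [A]; linarith, by simp only [B]; linarith, hcm, hdm⟩
  refine ⟨U, hU.mem_nhds hm0, fun m => (B m / (B m - A m)) • c + (-A m / (B m - A m)) • d, ?_,
    fun m hm => ?_⟩
  · have hne : ∀ m ∈ U, B m - A m ≠ 0 := fun m hm => by linarith [hm.1, hm.2.1]
    exact ((hB.continuousOn.div (hB.sub hA).continuousOn hne).smul continuousOn_const).add
      ((hA.neg.continuousOn.div (hB.sub hA).continuousOn hne).smul continuousOn_const)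
  · obtain ⟨a1, a2, a3, a4⟩ := hm
    have hp : 0 < B m - A m := by linarith
    have hs : B m / (B m - A m) + -A m / (B m - A m) = 1 := by field_simp; ring
    have hy : (B m / (B m - A m)) • c + (-A m / (B m - A m)) • d ∈ segment ℝ c d :=
      ⟨_, _, div_nonneg a2.le hp.le, div_nonneg (by linarith) hp.le, hs, rfl⟩
    refine ⟨hseg hy, h.nearest ?_ ?_⟩
    · have e : (B m / (B m - A m)) • c + (-A m / (B m - A m)) • d - m =
          (B m / (B m - A m)) • (c - m) + (-A m / (B m - A m)) • (d - m) := by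
        rw [smul_sub, smul_sub, sub_add_sub_comm, ← add_smul, hs, one_smul]
      rw [e, inner_add_right, real_inner_smul_right, real_inner_smul_right]
      change B m / (B m - A m) * A m + -A m / (B m - A m) * B m = 0
      ring
    · have := seg_ball a3.le a4.le hy
      nlinarith [h.pos]

theorem Tube.equiv (h : Tube M T K) {β : ℝ} (hβ : 0 < β) (hK : 320 * K * β ≤ 1)
    {S : Set E2} (hS : ∀ p ∈ S, ∃ m : M, dist p m < β / 100)
    (hS' : ∀ m : M, ∃ p ∈ S, dist p m < β / 100) :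
    Nonempty (ContinuousMap.HomotopyEquiv (shadow β S) M) := by
  have : CompactSpace M := isCompact_iff_compactSpace.1 h.compact
  have hex : ∀ x : shadow β S, ∃ m : M, (x : E2) ∈ fib β S M m := by
    intro x
    obtain ⟨m, hm, hmin⟩ := h.compact.exists_isMinOn h.ne (f := fun z => dist (x : E2) z)
      (by fun_prop)
    exact ⟨⟨m, hm⟩, x.2, fun m' => hmin m'.2⟩
  choose π hπ using hex
  have huniq : ∀ (x : shadow β S) (m : M), (x : E2) ∈ fib β S M m → π x = m := by
    intro x m hm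
    obtain ⟨σ, -, -, -, -, e, -⟩ := near_of_mem hS hm
    have e1 := h.strict (h.fermat m x hm.2) (by nlinarith [h.pos]) (π x)
    have e2 := pow_le_pow_left₀ dist_nonneg ((hπ x).2 m) 2
    have e3 : ‖((π x : M) : E2) - m‖ ^ 2 = 0 := le_antisymm (by linarith) (sq_nonneg _)
    exact Subtype.ext (sub_eq_zero.1 (norm_eq_zero.1 (pow_eq_zero_iff two_ne_zero |>.1 e3)))
  have hπc : Continuous π := by
    refine continuous_iff_isClosed.2 fun C hC => ?_
    have hG : IsClosed {p : shadow β S × M | p.2 ∈ C ∧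
        ∀ m' : M, dist (p.1 : E2) p.2 ≤ dist (p.1 : E2) m'} := by
      have h2 : IsClosed {p : shadow β S × M |
          ∀ m' : M, dist (p.1 : E2) p.2 ≤ dist (p.1 : E2) m'} := by
        rw [ofPred_forall]
        exact isClosed_iInter fun m' => isClosed_le (by fun_prop) (by fun_prop)
      exact (hC.preimage continuous_snd).inter h2
    have e : π ⁻¹' C = Prod.fst '' {p : shadow β S × M | p.2 ∈ C ∧
        ∀ m' : M, dist (p.1 : E2) p.2 ≤ dist (p.1 : E2) m'} := by
      ext x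
      constructor
      · intro hx
        exact ⟨(x, π x), ⟨hx, (hπ x).2⟩, rfl⟩
      · rintro ⟨⟨x, m⟩, ⟨h1, h2⟩, rfl⟩
        have : π x = m := huniq x m ⟨x.2, h2⟩
        exact this ▸ h1
    rw [e]
    exact isClosedMap_fst_of_compactSpace _ hG
  obtain ⟨g, hg⟩ := h.exists_section hβ hK hS hS'
  let s : C(M, shadow β S) := ⟨fun m => ⟨g m, (hg m).1⟩, g.continuous.subtype_mk _⟩
  refine ⟨⟨⟨π, hπc⟩, s, ⟨⟨⟨fun p => ⟨(1 - (p.1 : ℝ)) • g (π p.2) + (p.1 : ℝ) • (p.2 : E2), ?_⟩,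
    ?_⟩, fun x => ?_, fun x => ?_⟩⟩, ?_⟩⟩
  · exact (h.convex_fib hβ hK hS hS' (π p.2) (hg _) (hπ _) (sub_nonneg.2 p.1.2.2) p.1.2.1
      (by ring)).1
  · refine Continuous.subtype_mk ?_ _
    fun_prop
  · exact Subtype.ext (by simp [s])
  · exact Subtype.ext (by simp)
  · have : (⟨π, hπc⟩ : C(shadow β S, M)).comp s = ContinuousMap.id M :=
      ContinuousMap.ext fun m => huniq (s m) m (hg m)
    rw [this]

end Pool.Agent.MP_937632_gt.Plane
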