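import Mathlib.Analysis.Calculus.MeanValue
import Mathlib.Analysis.Calculus.ContDiff.Deriv
import Mathlib.Analysis.Calculus.Deriv.Shift
import Mathlib.Analysis.Calculus.LocalExtr.Basic
import Mathlib.Analysis.InnerProductSpace.Calculus
import Mathlib.Topology.Instances.Real.Lemmas
import Pool.Agent.MP_937632_gt.h13.Plane

/-!
A smooth simple closed plane curve has the tube data, hence the planar case of the question.
-/

set_option autoImplicit false

open Set Metric Function
open scoped InnerProductSpace ContDiff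

namespace Pool.Agent.MP_937632_gt.Plane

theorem periodic_deriv {γ : ℝ → E2} (hp : Periodic γ 1) : Periodic (deriv γ) 1 := by
  intro t
  rw [← deriv_comp_add_const γ 1 t]
  congr 1
  exact funext hp

theorem per_int {γ : ℝ → E2} (hp : Periodic γ 1) (x : ℝ) (n : ℤ) : γ (x - n) = γ x := by
  have := hp.sub_int_mul_eq (x := x) n
  rwa [mul_one] at this

theorem per_fract {γ : ℝ → E2} (hp : Periodic γ 1) (x : ℝ) : γ (Int.fract x) = γ x :=
  per_int hp x ⌊x⌋

theorem exists_int {γ : ℝ → E2} (hp : Periodic γ 1) (hi : InjOn γ (Ico 0 1)) {s t : ℝ}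
    (h : γ s = γ t) : ∃ n : ℤ, s = t + n := by
  have e := per_fract hp
  have := hi ⟨Int.fract_nonneg s, Int.fract_lt_one s⟩ ⟨Int.fract_nonneg t, Int.fract_lt_one t⟩
    (by rw [e, e, h])
  refine ⟨⌊s⌋ - ⌊t⌋, ?_⟩
  simp only [Int.fract] at this
  push_cast
  linarith

theorem taylor {γ : ℝ → E2} (h1 : Differentiable ℝ γ) (h2 : Differentiable ℝ (deriv γ)) {C : ℝ}
    (hC : ∀ t, ‖deriv (deriv γ) t‖ ≤ C) (s t : ℝ) :
    ‖γ s - γ t - (s - t) • deriv γ t‖ ≤ C * (s - t) ^ 2 := by
  have hC0 : 0 ≤ C := (norm_nonneg _).trans (hC 0)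
  have a1 : ∀ u, ‖deriv γ u - deriv γ t‖ ≤ C * ‖u - t‖ := fun u =>
    convex_univ.norm_image_sub_le_of_norm_hasDerivWithin_le (f := deriv γ)
      (fun x _ => (h2 x).hasDerivAt.hasDerivWithinAt) (fun x _ => hC x) (mem_univ _) (mem_univ _)
  have a2 := (convex_closedBall t ‖s - t‖).norm_image_sub_le_of_norm_hasDerivWithin_le
    (f := fun u => γ u - u • deriv γ t) (f' := fun u => deriv γ u - deriv γ t)
    (C := C * ‖s - t‖)
    (fun x _ => by
      have := ((h1 x).hasDerivAt.fun_sub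
        ((hasDerivAt_id' x).smul_const (deriv γ t))).hasDerivWithinAt (s := closedBall t ‖s - t‖)
      rwa [one_smul] at this)
    (fun x hx => (a1 x).trans (mul_le_mul_of_nonneg_left (mem_closedBall_iff_norm.1 hx) hC0))
    (mem_closedBall_self (norm_nonneg _)) (mem_closedBall_iff_norm.2 le_rfl)
  have e : γ s - γ t - (s - t) • deriv γ t = γ s - s • deriv γ t - (γ t - t • deriv γ t) := by
    rw [sub_smul]; abel
  rw [e]
  refine a2.trans (le_of_eq ?_)
  rw [mul_assoc, ← sq, Real.norm_eq_abs, sq_abs]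

theorem exists_tube {γ : ℝ → E2} (hs : ContDiff ℝ ∞ γ) (hp : Periodic γ 1)
    (hi : InjOn γ (Ico 0 1)) (hd : ∀ t, deriv γ t ≠ 0) :
    ∃ (T : range γ → E2) (K : ℝ), Tube (range γ) T K := by
  have hs1 : ContDiff ℝ ∞ (deriv γ) := (contDiff_infty_iff_deriv.1 hs).2
  have hs2 : ContDiff ℝ ∞ (deriv (deriv γ)) := (contDiff_infty_iff_deriv.1 hs1).2
  have h1 : Differentiable ℝ γ := (contDiff_infty_iff_deriv.1 hs).1
  have h2 : Differentiable ℝ (deriv γ) := (contDiff_infty_iff_deriv.1 hs1).1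
  have hp1 := periodic_deriv hp
  obtain ⟨C, hC0, hC⟩ := ((periodic_deriv hp1).isBounded_of_continuous one_ne_zero
    hs2.continuous).exists_pos_norm_le
  have tay := taylor h1 h2 (C := C) fun t => hC _ ⟨t, rfl⟩
  obtain ⟨_, ⟨t0, rfl⟩, hmin⟩ := (hp1.compact_of_continuous one_ne_zero
    hs1.continuous).exists_isMinOn (range_nonempty _) continuous_norm.continuousOn
  set c0 := ‖deriv γ t0‖ with hc0
  have hc0p : 0 < c0 := norm_pos_iff.2 (hd t0)
  have hlow : ∀ t, c0 ≤ ‖deriv γ t‖ := fun t => hmin (mem_range_self t)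
  -- the curve is bi-Lipschitz on arcs of half a period
  have hbi : ∃ c > 0, c ≤ c0 ∧ ∀ s t, |s - t| ≤ 1 / 2 → c * |s - t| ≤ ‖γ s - γ t‖ := by
    have hsm : ∀ s t, |s - t| ≤ c0 / (2 * C) → c0 / 2 * |s - t| ≤ ‖γ s - γ t‖ := by
      intro s t hst
      have e1 := norm_sub_norm_le ((s - t) • deriv γ t) (γ s - γ t)
      rw [norm_sub_rev ((s - t) • deriv γ t), norm_smul, Real.norm_eq_abs] at e1
      have e2 := tay s t
      rw [← sq_abs] at e2
      have e3 : C * |s - t| ≤ c0 / 2 := by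
        rw [le_div_iff₀ (by positivity)] at hst
        linarith
      nlinarith [abs_nonneg (s - t), hlow t]
    let Q : Set (ℝ × ℝ) := Icc 0 1 ×ˢ (Icc (-(1 / 2)) (1 / 2) ∩ {u | c0 / (2 * C) ≤ |u|})
    have hQ : IsCompact Q := isCompact_Icc.prod
      (isCompact_Icc.inter_right (isClosed_le continuous_const continuous_abs))
    have hc := h1.continuous
    obtain ⟨μ, hμ, hμQ⟩ := hQ.exists_forall_le' (f := fun p : ℝ × ℝ => ‖γ (p.1 + p.2) - γ p.1‖)
      (by fun_prop) (a := 0) (by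
        rintro ⟨t, u⟩ ⟨-, hu1, hu2⟩
        refine norm_pos_iff.2 (sub_ne_zero.2 fun e => ?_)
        obtain ⟨n, hn⟩ := exists_int hp hi e
        have hu : u = n := by linarith
        have hu3 : (0 : ℝ) < |u| := lt_of_lt_of_le (by positivity) hu2
        have hu4 : |u| < 1 := abs_lt.2 ⟨by linarith [hu1.1], by linarith [hu1.2]⟩
        rw [hu, ← Int.cast_abs] at hu3 hu4
        have a1 : 0 < |n| := by exact_mod_cast hu3
        have a2 : |n| < 1 := by exact_mod_cast hu4
        omega)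
    refine ⟨min (c0 / 2) μ, lt_min (by linarith) hμ, (min_le_left _ _).trans (by linarith),
      fun s t hst => ?_⟩
    by_cases hsmall : |s - t| ≤ c0 / (2 * C)
    · exact (mul_le_mul_of_nonneg_right (min_le_left _ _) (abs_nonneg _)).trans (hsm s t hsmall)
    · have e1 := hμQ (Int.fract t, s - t) ⟨⟨Int.fract_nonneg t, (Int.fract_lt_one t).le⟩,
        abs_le.1 hst, (not_le.1 hsmall).le⟩
      have e2 : γ (Int.fract t + (s - t)) = γ s := by
        rw [← per_int hp s ⌊t⌋]
        congr 1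
        simp only [Int.fract]; ring
      have e3 := per_fract hp t
      simp only [e2, e3] at e1
      have e4 : min (c0 / 2) μ * |s - t| ≤ μ * 1 :=
        mul_le_mul (min_le_right _ _) (by linarith) (abs_nonneg _) hμ.le
      linarith
  obtain ⟨c, hc, hcc, hbi⟩ := hbi
  let par : range γ → ℝ := fun m => m.2.choose
  have hpar : ∀ m : range γ, γ (par m) = m := fun m => m.2.choose_spec
  let T : range γ → E2 := fun m => ‖deriv γ (par m)‖⁻¹ • deriv γ (par m)
  have hne : ∀ t, ‖deriv γ t‖ ≠ 0 := fun t => norm_ne_zero_iff.2 (hd t)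
  have hT : ∀ t, T ⟨γ t, t, rfl⟩ = ‖deriv γ t‖⁻¹ • deriv γ t := fun t => by
    obtain ⟨n, hn⟩ := exists_int hp hi (hpar ⟨γ t, t, rfl⟩)
    have : deriv γ (par ⟨γ t, t, rfl⟩) = deriv γ t := by
      rw [hn]
      simpa using hp1.int_mul n t
    simp only [T, this]
  have horth : ∀ (m : range γ) (v : E2), ⟪T m, v⟫_ℝ = 0 ↔ ⟪deriv γ (par m), v⟫_ℝ = 0 := by
    intro m v
    simp only [T, real_inner_smul_left, mul_eq_zero, inv_eq_zero, hne, false_or]
  refine ⟨T, C / c ^ 2, hp.compact_of_continuous one_ne_zero h1.continuous, range_nonempty _,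
    ?_, fun m => ?_, by positivity, fun m m' v hv => ?_, fun m x hx => ?_, fun m τ => ?_⟩
  · let q : Icc (0 : ℝ) 1 → range γ := fun t => ⟨γ t, t, rfl⟩
    have hq : Continuous q := (h1.continuous.comp continuous_subtype_val).subtype_mk _
    have hsur : Surjective q := by
      rintro ⟨_, t, rfl⟩
      refine ⟨⟨Int.fract t, Int.fract_nonneg t, (Int.fract_lt_one t).le⟩, Subtype.ext ?_⟩
      exact per_fract hp t
    refine (hq.isClosedMap.isQuotientMap hq hsur).continuous_iff.2 ?_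
    have : T ∘ q = fun t : Icc (0 : ℝ) 1 => ‖deriv γ t‖⁻¹ • deriv γ t := funext fun t => hT t
    rw [this]
    have hc1 : Continuous fun t : Icc (0 : ℝ) 1 => deriv γ t :=
      hs1.continuous.comp continuous_subtype_val
    exact (hc1.norm.inv₀ fun t => hne t).smul hc1
  · simp only [T, norm_smul, norm_inv, norm_norm]
    exact inv_mul_cancel₀ (hne _)
  · rw [horth] at hv
    set t := par m
    set s := par m' - round (par m' - t) with hsdef
    have e1 : γ s = m' := by
      rw [← hpar m']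
      exact per_int hp _ _
    have e2 : |s - t| ≤ 1 / 2 := by
      have := abs_sub_round (par m' - t)
      rwa [show par m' - t - round (par m' - t) = s - t by rw [hsdef]; ring] at this
    have e3 : ⟪v, γ s - γ t⟫_ℝ = ⟪v, γ s - γ t - (s - t) • deriv γ t⟫_ℝ := by
      rw [inner_sub_right v (γ s - γ t), real_inner_smul_right,
        real_inner_comm (deriv γ t) v, hv, mul_zero, sub_zero]
    rw [← e1, ← hpar m, e3]
    refine (abs_real_inner_le_norm _ _).trans ?_
    have e4 : (s - t) ^ 2 ≤ ‖γ s - γ t‖ ^ 2 / c ^ 2 := by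
      rw [le_div_iff₀ (by positivity), ← sq_abs (s - t), ← mul_pow, mul_comm]
      exact pow_le_pow_left₀ (by positivity) (hbi s t e2) 2
    calc ‖v‖ * ‖γ s - γ t - (s - t) • deriv γ t‖ ≤ ‖v‖ * (C * (‖γ s - γ t‖ ^ 2 / c ^ 2)) := by
          gcongr
          exact (tay s t).trans (mul_le_mul_of_nonneg_left e4 hC0.le)
      _ = _ := by ring
  · rw [horth, ← hpar m]
    have e1 : IsLocalMin (fun s => ‖x - γ s‖ ^ 2) (par m) := by
      refine Filter.Eventually.of_forall fun s => ?_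
      have := hx ⟨γ s, s, rfl⟩
      rw [dist_eq_norm, dist_eq_norm, ← hpar m] at this
      exact pow_le_pow_left₀ (norm_nonneg _) this 2
    have e2 := e1.hasDerivAt_eq_zero ((h1 (par m)).hasDerivAt.const_sub x).norm_sq
    rw [inner_neg_right, real_inner_comm] at e2
    linarith
  · refine ⟨⟨γ (par m + τ * ‖deriv γ (par m)‖⁻¹), _, rfl⟩, ?_⟩
    have e1 := tay (par m + τ * ‖deriv γ (par m)‖⁻¹) (par m)
    rw [add_sub_cancel_left, hpar m, mul_smul] at e1
    refine e1.trans ?_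
    have e2 : ‖deriv γ (par m)‖⁻¹ ≤ c⁻¹ := inv_anti₀ hc (hcc.trans (hlow _))
    have e3 : (‖deriv γ (par m)‖⁻¹) ^ 2 ≤ c⁻¹ ^ 2 := pow_le_pow_left₀ (by positivity) e2 2
    calc C * (τ * ‖deriv γ (par m)‖⁻¹) ^ 2 = C * τ ^ 2 * (‖deriv γ (par m)‖⁻¹) ^ 2 := by ring
      _ ≤ C * τ ^ 2 * c⁻¹ ^ 2 := by gcongr
      _ = _ := by field_simp

theorem planar {γ : ℝ → E2} (hs : ContDiff ℝ ∞ γ) (hp : Periodic γ 1)
    (hi : InjOn γ (Ico 0 1)) (hd : ∀ t, deriv γ t ≠ 0) :
    ∃ β₀ > 0, ∀ β : ℝ, 0 < β → β < β₀ → ∀ S : Set E2, S.Finite → S.Nonempty →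
      hausdorffDist S (range γ) < β / 100 →
        Nonempty (ContinuousMap.HomotopyEquiv (shadow β S) (range γ)) := by
  obtain ⟨T, K, h⟩ := exists_tube hs hp hi hd
  have hK := h.pos
  refine ⟨1 / (320 * K), by positivity, fun β hβ hβ' S hS hne hH => ?_⟩
  have hfin := hausdorffEDist_ne_top_of_nonempty_of_bounded hne h.ne hS.isBounded
    h.compact.isBounded
  refine h.equiv hβ ?_ (fun p hp => ?_) fun m => ?_
  · rw [lt_div_iff₀ (by positivity)] at hβ'
    linarith
  · obtain ⟨m, hm, e⟩ := exists_dist_lt_of_hausdorffDist_lt hp hH hfin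
    exact ⟨⟨m, hm⟩, e⟩
  · exact exists_dist_lt_of_hausdorffDist_lt' m.2 hH hfin

end Pool.Agent.MP_937632_gt.Plane
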